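import Pool.Agent.W285.UB.Stm
import Pool.Agent.Helper259.AbsHt

/-!
Project UB (MP_90787a_nt), part ROOT: height of a zero of a form with integral coefficients.
-/

set_option autoImplicit false

namespace Pool.Agent.W327.UB

open NumberField Height Module
open Pool.Agent.W285.UB Pool.Agent.Helper259.AbsHt

theorem ht_inf : absLogHeight ![(1 : Qbar), 0] = 0 := by
  have h := absLogHeight_int (![1, 0] : Fin 2 → ℤ) (by decide)
  have e1 : (fun i => ((![1, 0] : Fin 2 → ℤ) i : Qbar)) = ![(1 : Qbar), 0] := by
    funext i; fin_cases i <;> simp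
  rw [e1] at h
  rw [h]
  have e2 : (⨆ i, |(![1, 0] : Fin 2 → ℤ) i| : ℤ) = 1 := by
    apply le_antisymm
    · apply ciSup_le
      intro i; fin_cases i <;> simp
    · have := le_ciSup (f := fun i => |(![1, 0] : Fin 2 → ℤ) i|) (Set.finite_range _).bddAbove 0
      simpa using this
  rw [e2]
  simp

theorem root : S_HINT → S_ROOT := by
  intro hH d
  obtain ⟨C0, hC0⟩ := absLogHeight_root d
  refine ⟨max 1 (Real.exp C0), le_max_left _ _, ?_⟩
  intro K _ _ ι B hB f hf hhouse v hv hval
  have hB0 : 0 < B := by linarith
  have hC1 : 1 ≤ max 1 (Real.exp C0) := le_max_left _ _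
  have hinj : Function.Injective (io ι) := by
    unfold io
    rw [RingHom.coe_comp]
    exact ι.injective.comp (FaithfulSMul.algebraMap_injective (𝓞 K) K)
  by_cases hy : v 1 = 0
  · have hx : v 0 ≠ 0 := by
      intro hx
      apply hv
      funext i
      fin_cases i
      · simpa using hx
      · simpa using hy
    have e1 : v = v 0 • ![(1 : Qbar), 0] := by
      funext i
      fin_cases i
      · simp
      · simpa using hy
    unfold ht
    rw [e1, absLogHeight_smul _ hx, ht_inf, Real.exp_zero]
    nlinarith
  · obtain ⟨α, hα⟩ : ∃ α : Qbar, α = v 0 / v 1 := ⟨_, rfl⟩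
    have e1 : v = v 1 • ![α, 1] := by
      funext i
      fin_cases i
      · simp [hα]; field_simp
      · simp
    have hP : ∃ P : Polynomial Qbar, P = ∑ i : Fin (d + 1), Polynomial.monomial (i : ℕ) (io ι (f i)) :=
      ⟨_, rfl⟩
    obtain ⟨P, hP⟩ := hP
    have hcoeff : ∀ i : Fin (d + 1), P.coeff (i : ℕ) = io ι (f i) := by
      intro i
      rw [hP, Polynomial.finsetSum_coeff, Finset.sum_eq_single i]
      · simp
      · intro j _ hj
        rw [Polynomial.coeff_monomial, if_neg]
        intro h
        exact hj (Fin.ext h)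
      · simp
    have hP0 : P ≠ 0 := by
      intro h0
      apply hf
      funext i
      apply hinj
      rw [← hcoeff i, h0]
      simp
    have hdeg : P.natDegree ≤ d := by
      rw [hP]
      apply Polynomial.natDegree_sum_le_of_forall_le
      intro i _
      exact (Polynomial.natDegree_monomial_le _).trans (by have := i.2; omega)
    have heval : P.eval α = 0 := by
      have h1 : v 1 ^ d * P.eval α = fval (io ι) f v := by
        rw [hP, Polynomial.eval_finsetSum, Finset.mul_sum]
        unfold fval
        refine Finset.sum_congr rfl fun i _ => ?_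
        rw [Polynomial.eval_monomial, hα, div_pow]
        have h2 : v 1 ^ d = v 1 ^ (d - (i : ℕ)) * v 1 ^ (i : ℕ) := by
          rw [← pow_add]
          congr 1
          have := i.2
          omega
        rw [h2]
        field_simp
      rw [hval] at h1
      exact (mul_eq_zero.1 h1).resolve_left (pow_ne_zero _ hy)
    have h1 := hC0 P α hP0 hdeg heval
    have h2 : Pool.Agent.Helper259.HtPoly.cv d P = fun i => io ι (f i) := by
      funext i
      exact hcoeff i
    rw [h2] at h1
    have h3 := hH K ι (Fin (d + 1)) f B hB hhouse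
    have h4 : absLogHeight ![α, 1] ≤ absLogHeight ![1, α] := by
      have h5 := absLogHeight_comp_le ![(1 : Fin 2), 0] ![(1 : Qbar), α]
      have e2 : ![(1 : Qbar), α] ∘ ![(1 : Fin 2), 0] = ![α, 1] := by
        funext i
        fin_cases i <;> simp
      rwa [e2] at h5
    unfold ht
    rw [e1, absLogHeight_smul _ hy]
    calc Real.exp (absLogHeight ![α, 1]) ≤ Real.exp (C0 + Real.log B) :=
          Real.exp_le_exp.2 (by linarith)
      _ = Real.exp C0 * B := by rw [Real.exp_add, Real.exp_log hB0]
      _ ≤ max 1 (Real.exp C0) * B := mul_le_mul_of_nonneg_right (le_max_right _ _) hB0.le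

end Pool.Agent.W327.UB
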